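import Pool.Agent.H384R3.SPk.Defs4
import Pool.Agent.H384R3.SPk.TaskC

set_option autoImplicit false

/-! Task K of project SPK384: the energy formula. -/

namespace Pool.Agent.H996R3.SPK

open Finset Pool.Agent.H384R3.SPk Pool.Agent.H384R3.SPk.C

lemma ind_apply (A : Finset ℤ) (n : ℤ) : ind A n = if n ∈ A then 1 else 0 := by
  classical
  unfold ind
  rw [Finsupp.finsetSum_apply]
  simp only [Finsupp.single_apply]
  rw [Finset.sum_ite_eq' A n]

lemma ind_support (A : Finset ℤ) : (ind A).support ⊆ A := by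
  intro n hn
  rw [Finsupp.mem_support_iff, ind_apply] at hn
  by_contra h
  exact hn (if_neg h)

theorem energy_eq (k : ℕ) (A : Finset ℤ) :
    energy k A = ∑ s ∈ sumset k A,
      ((Fintype.piFinset (fun _ : Fin k => A)).filter fun a => ∑ i, a i = s).card ^ 2 := by
  classical
  unfold energy
  rw [Finset.card_eq_sum_card_fiberwise (f := fun p : (Fin k → ℤ) × (Fin k → ℤ) => ∑ i, p.1 i)
    (t := sumset k A)]
  · refine sum_congr rfl fun s _ => ?_
    rw [sq, ← card_product]
    congr 1
    ext p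
    simp only [mem_filter, mem_product]
    constructor
    · rintro ⟨⟨⟨h1, h2⟩, h3⟩, h4⟩
      exact ⟨⟨h1, h4⟩, h2, h3 ▸ h4⟩
    · rintro ⟨⟨h1, h2⟩, h3, h4⟩
      exact ⟨⟨⟨h1, h3⟩, h2.trans h4.symm⟩, h2⟩
  · intro p hp
    have hp' := mem_coe.1 hp
    rw [mem_filter, mem_product] at hp'
    exact mem_coe.2 (mem_image_of_mem _ hp'.1.1)

theorem taskK : TaskK := by
  classical
  intro k A
  set T := Fintype.piFinset (fun _ : Fin k => A) with hT
  set f := ind A with hf
  have hA : f.support ⊆ A := ind_support A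
  set r : ℤ → ℝ := fun s => ∑ a ∈ T with ∑ i, a i = s, ∏ i, f (a i) with hr
  have hF : ∀ x, F f x = ∑ n ∈ A, (f n : ℂ) * e n x := by
    intro x
    unfold F
    rw [Finsupp.sum_of_support_subset f hA]
    · rfl
    · intro n _
      simp
  have hmaps : ∀ a ∈ T, (∑ i, a i) ∈ sumset k A := by
    intro a ha
    exact mem_image_of_mem _ ha
  have hpow : ∀ x, (F f x) ^ k = ∑ s ∈ sumset k A, (r s : ℂ) * e s x := by
    intro x
    have h1 : (F f x) ^ k = ∑ a ∈ T, ∏ i, ((f (a i) : ℂ) * e (a i) x) := by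
      have := Finset.prod_univ_sum (fun _ : Fin k => A) (fun _ n => (f n : ℂ) * e n x)
      rw [← this, hF]
      simp
    rw [h1, ← Finset.sum_fiberwise_of_maps_to hmaps]
    refine sum_congr rfl fun s _ => ?_
    rw [hr]
    push_cast
    rw [sum_mul]
    refine sum_congr rfl fun a ha => ?_
    rw [prod_mul_distrib, ← e_sum, (mem_filter.1 ha).2]
  have hM : M k f = ∑ s ∈ sumset k A, r s ^ 2 := by
    unfold M
    rw [← parseval]
    congr 1
    ext x
    rw [← hpow, norm_pow, ← pow_mul, mul_comm]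
  have hrs : ∀ s, r s = ((T.filter fun a => ∑ i, a i = s).card : ℝ) := by
    intro s
    rw [hr]
    simp only
    rw [Finset.sum_congr rfl (g := fun _ => (1 : ℝ))]
    · simp
    · intro a ha
      have ha' := Fintype.mem_piFinset.1 (mem_filter.1 ha).1
      refine Finset.prod_eq_one fun i _ => ?_
      rw [hf, ind_apply, if_pos (ha' i)]
  rw [hM, energy_eq]
  push_cast
  refine sum_congr rfl fun s _ => ?_
  rw [hrs]

end Pool.Agent.H996R3.SPK
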